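import Pool.Agent.Lib.MP_ba0fa5_ag.AA.IfaceA

/-!
# CLASSLOW: lower bound for the weights in one class modulo `primorial W`
-/

set_option autoImplicit false

namespace Pool.Agent.Lib.MP_ba0fa5_ag.AA.H70

open scoped Classical
open Finset

theorem dl_nonneg (l : ℕ) : 0 ≤ dl l := by
  unfold dl
  split_ifs <;> norm_num

theorem ws_nonneg (n : ℕ) : 0 ≤ ws n :=
  Finset.prod_nonneg fun l _ => pow_nonneg (dl_nonneg l) _

theorem ws_mul_prime {l m : ℕ} (hl : l.Prime) (hm : m ≠ 0) (h : ¬ l ∣ m) :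
    ws (l * m) = dl l * ws m := by
  have hcop : l.Coprime m := (Nat.Prime.coprime_iff_not_dvd hl).2 h
  have hd : Disjoint ({l} : Finset ℕ) m.primeFactors := by
    rw [Finset.disjoint_singleton_left]
    intro hc
    exact h (Nat.dvd_of_mem_primeFactors hc)
  have hf : (l * m).factorization = l.factorization + m.factorization :=
    Nat.factorization_mul hl.ne_zero hm
  unfold ws
  rw [hcop.primeFactors_mul, hl.primeFactors, Finset.prod_union hd, Finset.prod_singleton, hf]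
  congr 1
  · rw [Finsupp.add_apply, hl.factorization_self, Nat.factorization_eq_zero_of_not_dvd h, add_zero,
      pow_one]
  · apply Finset.prod_congr rfl
    intro p hp
    have hpl : p ≠ l := by
      rintro rfl
      exact h (Nat.dvd_of_mem_primeFactors hp)
    have hpp : p.Prime := Nat.prime_of_mem_primeFactors hp
    have : l.factorization p = 0 := by
      apply Nat.factorization_eq_zero_of_not_dvd
      intro hdv
      exact hpl ((Nat.prime_dvd_prime_iff_eq hpp hl).1 hdv)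
    rw [Finsupp.add_apply, this, zero_add]

theorem primorial_mod4 {W : ℕ} (hW : 3 ≤ W) : primorial W % 4 = 2 := by
  have h2 : 2 ∈ (range (W + 1)).filter Nat.Prime := by
    rw [Finset.mem_filter, Finset.mem_range]
    exact ⟨by omega, Nat.prime_two⟩
  have e : primorial W = 2 * ∏ p ∈ ((range (W + 1)).filter Nat.Prime).erase 2, p := by
    unfold primorial
    rw [Finset.mul_prod_erase _ (fun p => p) h2]
  have ho : Odd (∏ p ∈ ((range (W + 1)).filter Nat.Prime).erase 2, p) := by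
    apply Finset.prod_induction _ Odd
    · intro a b ha hb
      exact ha.mul hb
    · exact odd_one
    · intro p hp
      rw [Finset.mem_erase, Finset.mem_filter] at hp
      exact hp.2.2.odd_of_ne_two hp.1
  obtain ⟨k, hk⟩ := ho
  rw [e, hk]
  omega

theorem rgh_coprime {W m : ℕ} (h : Rgh W m) : m.Coprime (primorial W) := by
  unfold primorial
  apply Nat.Coprime.prod_right
  intro p hp
  rw [Finset.mem_filter, Finset.mem_range] at hp
  rw [Nat.coprime_comm, Nat.Prime.coprime_iff_not_dvd hp.2]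
  intro hd
  have := h p hp.2 hd
  omega

/-- the class of the large prime -/
theorem exists_class {W a m : ℕ} (hW : 3 ≤ W) (ha : a.Coprime (primorial W)) (hm : Rgh W m) :
    ∃ b : ℕ, b.Coprime (2 * primorial W) ∧ ∀ l : ℕ, l ≡ b [MOD 2 * primorial W] →
      l % 4 = 3 ∧ l * m ≡ a [MOD primorial W] := by
  have h4 := primorial_mod4 hW
  set Q := primorial W with hQ
  have hmc : m.Coprime Q := rgh_coprime hm
  have hφ : 0 < Q.totient := Nat.totient_pos.2 (by omega)
  obtain ⟨b0, hb0, hb0m⟩ : ∃ b0 : ℕ, b0.Coprime Q ∧ b0 * m ≡ a [MOD Q] := by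
    refine ⟨a * m ^ (Q.totient - 1), ha.mul_left (hmc.pow_left _), ?_⟩
    have e : a * m ^ (Q.totient - 1) * m = a * m ^ Q.totient := by
      rw [mul_assoc, ← pow_succ, Nat.sub_add_cancel hφ]
    rw [e]
    have := (Nat.ModEq.pow_totient hmc).mul_left a
    rwa [mul_one] at this
  have hodd : b0 % 2 = 1 := by
    have h2 : b0.Coprime 2 := hb0.coprime_dvd_right (by omega : 2 ∣ Q)
    rw [Nat.coprime_comm, Nat.coprime_two_left] at h2
    exact Nat.odd_iff.1 h2
  -- the right class modulo four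
  obtain ⟨b, hbc, hbm, hb4⟩ : ∃ b : ℕ, b.Coprime Q ∧ b * m ≡ a [MOD Q] ∧ b % 4 = 3 := by
    by_cases h : b0 % 4 = 3
    · exact ⟨b0, hb0, hb0m, h⟩
    · refine ⟨b0 + Q, ?_, ?_, by omega⟩
      · rwa [Nat.coprime_add_self_left]
      · have : (b0 + Q) * m = b0 * m + Q * m := by ring
        rw [this]
        have h3 : b0 * m + Q * m ≡ b0 * m + 0 [MOD Q] :=
          Nat.ModEq.add_left _ ((Nat.modEq_zero_iff_dvd).2 (Dvd.intro _ rfl))
        exact h3.trans hb0m
  refine ⟨b, ?_, ?_⟩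
  · apply Nat.Coprime.mul_right _ hbc
    rw [Nat.coprime_comm, Nat.coprime_two_left]
    exact Nat.odd_iff.2 (by omega)
  · intro l hl
    constructor
    · have h5 : l ≡ b [MOD 4] := hl.of_dvd (by
        obtain ⟨k, hk⟩ : ∃ k, Q = 2 * k := ⟨Q / 2, by omega⟩
        exact ⟨k, by rw [hk]; ring⟩)
      have : l % 4 = b % 4 := h5
      omega
    · have h5 : l ≡ b [MOD Q] := hl.of_dvd (Dvd.intro_left 2 rfl)
      exact (h5.mul_right m).trans hbm

/-- reciprocals of the primes of one class in `(Y, Y ^ 2]` -/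
theorem inner (hM : MertapStmt) (hR : RecgStmt) (q : ℕ) (hq : 1 ≤ q) : ∃ Y₀ : ℕ, ∀ Y b : ℕ,
    Y₀ ≤ Y → b.Coprime q → 1 / (2 * (q.totient : ℝ)) ≤
      ∑ l ∈ (primesIn Y (Y ^ 2)).filter (fun l => l ≡ b [MOD q]), 1 / (l : ℝ) := by
  obtain ⟨C, hC⟩ := hM q hq
  have hφ : (0 : ℝ) < q.totient := by exact_mod_cast Nat.totient_pos.2 hq
  set κ : ℝ := 1 / q.totient with hκ
  have hκ0 : 0 < κ := by positivity
  set C₀ : ℝ := max C 0 with hC₀
  have hC₀0 : 0 ≤ C₀ := le_max_right _ _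
  set T : ℝ := (4 * C₀ + 4 * κ) / (κ / 10) with hT
  have hT0 : 0 ≤ T := by positivity
  refine ⟨⌈Real.exp T⌉₊ + 2, ?_⟩
  intro Y b hY hb
  have hY2 : 2 ≤ Y := by omega
  have hYr : Real.exp T ≤ Y := by
    have h1 := Nat.le_ceil (Real.exp T)
    have h2 : ((⌈Real.exp T⌉₊ : ℕ) : ℝ) ≤ (Y : ℝ) := by exact_mod_cast (by omega)
    linarith
  have hlog : T ≤ Real.log Y := by
    rw [Real.le_log_iff_exp_le (by positivity)]
    exact hYr
  have hlogpos : 0 < Real.log Y := Real.log_pos (by exact_mod_cast (by omega : 1 < Y))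
  set α : ℕ → ℝ := fun l => if l ≡ b [MOD q] then 1 else 0 with hα
  have h0 : ∀ l, 0 ≤ α l ∧ α l ≤ 1 := by
    intro l
    simp only [hα]
    split_ifs <;> norm_num
  have h1 : ∀ y : ℕ, 1 ≤ y →
      |∑ l ∈ primesIn 0 y, α l * Real.log l / l - κ * Real.log y| ≤ C₀ := by
    intro y hy
    have e : ∑ l ∈ primesIn 0 y, α l * Real.log l / l
        = ∑ l ∈ (Icc 1 y).filter (fun l => l.Prime ∧ l ≡ b [MOD q]), Real.log l / l := by
      unfold primesIn
      have e0 : Ioc 0 y = Icc 1 y := by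
        ext x
        rw [Finset.mem_Ioc, Finset.mem_Icc]
        constructor <;> rintro ⟨h, h'⟩ <;> exact ⟨by omega, h'⟩
      rw [e0, ← Finset.filter_filter, Finset.sum_filter (p := fun l => l ≡ b [MOD q])]
      apply Finset.sum_congr rfl
      intro l _
      simp only [hα]
      split_ifs
      · rw [one_mul]
      · rw [zero_mul, zero_div]
    rw [e]
    have := hC b y hb hy
    rw [hκ, one_div, inv_mul_eq_div]
    exact this.trans (le_max_left _ _)
  have h2 := hR α κ C₀ h0 hκ0.le hC₀0 h1 Y (Y ^ 2) hY2 (by nlinarith)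
  have e2 : Real.log ((Y ^ 2 : ℕ) : ℝ) / Real.log Y = 2 := by
    push_cast
    rw [Real.log_pow]
    field_simp
    norm_num
  rw [e2, abs_le] at h2
  have e3 : ∑ l ∈ primesIn Y (Y ^ 2), α l / l
      = ∑ l ∈ (primesIn Y (Y ^ 2)).filter (fun l => l ≡ b [MOD q]), 1 / (l : ℝ) := by
    rw [Finset.sum_filter]
    apply Finset.sum_congr rfl
    intro l _
    simp only [hα]
    split_ifs
    · rfl
    · rw [zero_div]
  rw [← e3]
  have h3 : (4 * C₀ + 4 * κ) / Real.log Y ≤ κ / 10 := by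
    rw [div_le_iff₀ hlogpos]
    have : T * (κ / 10) = 4 * C₀ + 4 * κ := by
      rw [hT]
      field_simp
    calc 4 * C₀ + 4 * κ = T * (κ / 10) := this.symm
      _ ≤ Real.log Y * (κ / 10) := by gcongr
      _ = κ / 10 * Real.log Y := mul_comm _ _
  have hlog2 := Real.log_two_gt_d9
  have h4 : 1 / (2 * (q.totient : ℝ)) = κ / 2 := by
    rw [hκ]
    field_simp
  rw [h4]
  nlinarith [h2.1]

theorem classlow (hL : LowwStmt) (hM : MertapStmt) (hR : RecgStmt) : ClasslowStmt := by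
  obtain ⟨c0, hc0, hL⟩ := hL
  refine ⟨c0 / 8, by positivity, ?_⟩
  intro W hW
  obtain ⟨y₀, hy₀⟩ := hL W hW
  have hQ4 := primorial_mod4 hW
  have hQpos : 0 < primorial W := primorial_pos W
  obtain ⟨Y₁, hY₁⟩ := inner hM hR (2 * primorial W) (by omega)
  refine ⟨y₀ + Y₁ + 2, ?_⟩
  intro Y a hY ha
  have hlow := hy₀ Y (by omega)
  have hφ : (2 * primorial W).totient = 2 * (primorial W).totient :=
    Nat.totient_mul_of_prime_of_dvd Nat.prime_two (by omega)
  have hφp : (0 : ℝ) < (primorial W).totient := by exact_mod_cast Nat.totient_pos.2 hQpos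
  -- the class of the large prime for every `m`
  choose! b hbc hb using fun (m : ℕ) (hm : Rgh W m) => exists_class hW ha hm
  set Ms : Finset ℕ := (Icc 1 Y).filter (fun n => Rgh W n) with hMs
  set Ls : ℕ → Finset ℕ := fun m =>
    (primesIn Y (Y ^ 2)).filter (fun l => l ≡ b m [MOD 2 * primorial W]) with hLs
  set g : (Σ _ : ℕ, ℕ) → ℕ := fun s => s.2 * s.1 with hg
  have hmem : ∀ s : (Σ _ : ℕ, ℕ), s ∈ Ms.sigma Ls → 1 ≤ s.1 ∧ s.1 ≤ Y ∧ Rgh W s.1 ∧
      s.2.Prime ∧ Y < s.2 ∧ s.2 ≤ Y ^ 2 ∧ s.2 ≡ b s.1 [MOD 2 * primorial W] := by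
    intro s hs
    rw [Finset.mem_sigma] at hs
    simp only [hMs, hLs, primesIn, Finset.mem_filter, Finset.mem_Icc, Finset.mem_Ioc] at hs
    exact ⟨hs.1.1.1, hs.1.1.2, hs.1.2, hs.2.1.2, hs.2.1.1.1, hs.2.1.1.2, hs.2.2⟩
  have hnd : ∀ s : (Σ _ : ℕ, ℕ), s ∈ Ms.sigma Ls → ¬ s.2 ∣ s.1 := by
    intro s hs hd
    obtain ⟨h1, h2, -, -, h5, -, -⟩ := hmem s hs
    have := Nat.le_of_dvd (by omega) hd
    omega
  have hinj : Set.InjOn g (Ms.sigma Ls : Finset (Σ _ : ℕ, ℕ)) := by
    intro s hs s' hs' hgg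
    have hs1 := hmem s (by exact_mod_cast hs)
    have hs2 := hmem s' (by exact_mod_cast hs')
    have hgg' : s.2 * s.1 = s'.2 * s'.1 := hgg
    have hdv : s'.2 ∣ s.2 * s.1 := by rw [hgg']; exact Dvd.intro _ rfl
    have hl : s'.2 = s.2 := by
      rcases (Nat.Prime.dvd_mul hs2.2.2.2.1).1 hdv with h | h
      · exact (Nat.prime_dvd_prime_iff_eq hs2.2.2.2.1 hs1.2.2.2.1).1 h
      · exfalso
        have h1 := Nat.le_of_dvd (by omega) h
        have h2 := hs1.2.1
        have h3 := hs2.2.2.2.2.1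
        omega
    have hm : s'.1 = s.1 := by
      rw [hl] at hgg'
      exact (Nat.eq_of_mul_eq_mul_left hs1.2.2.2.1.pos hgg').symm
    rcases s with ⟨s1, s2⟩
    rcases s' with ⟨t1, t2⟩
    simp only at hl hm
    subst hl hm
    rfl
  have hsub : (Ms.sigma Ls).image g ⊆ cls W a Y (Y ^ 3) := by
    intro n hn
    rw [Finset.mem_image] at hn
    obtain ⟨s, hs, rfl⟩ := hn
    obtain ⟨h1, h2, h3, h4, h5, h6, h7⟩ := hmem s hs
    unfold cls
    rw [Finset.mem_filter, Finset.mem_Ioc]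
    refine ⟨⟨?_, ?_⟩, (hb s.1 h3 s.2 h7).2⟩
    · show Y < s.2 * s.1
      calc Y < s.2 := h5
        _ = s.2 * 1 := (mul_one _).symm
        _ ≤ s.2 * s.1 := Nat.mul_le_mul_left _ h1
    · show s.2 * s.1 ≤ Y ^ 3
      calc s.2 * s.1 ≤ Y ^ 2 * Y := Nat.mul_le_mul h6 h2
        _ = Y ^ 3 := by ring
  calc c0 / 8 * SS W Y
      = 1 / (8 * ((primorial W).totient : ℝ)) *
          (c0 * (Real.log Y / Real.log W) ^ (5 / 16 : ℝ)) := by
        unfold SS
        field_simp
    _ ≤ 1 / (8 * ((primorial W).totient : ℝ)) * ∑ m ∈ Ms, ws m / m := by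
        gcongr
    _ = ∑ m ∈ Ms, ws m / m * (1 / 2) * (1 / (2 * ((2 * primorial W).totient : ℝ))) := by
        rw [Finset.mul_sum]
        apply Finset.sum_congr rfl
        intro m _
        rw [hφ]
        push_cast
        field_simp
        ring
    _ ≤ ∑ m ∈ Ms, ws m / m * (1 / 2) * ∑ l ∈ Ls m, 1 / (l : ℝ) := by
        apply Finset.sum_le_sum
        intro m hm
        have hm' : Rgh W m := (Finset.mem_filter.1 hm).2
        have := ws_nonneg m
        gcongr
        exact hY₁ Y (b m) (by omega) (hbc m hm')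
    _ = ∑ s ∈ Ms.sigma Ls, ws (g s) / ((g s : ℕ) : ℝ) := by
        rw [Finset.sum_sigma]
        apply Finset.sum_congr rfl
        intro m hm
        rw [Finset.mul_sum]
        apply Finset.sum_congr rfl
        intro l hl
        have hs : (⟨m, l⟩ : Σ _ : ℕ, ℕ) ∈ Ms.sigma Ls := Finset.mem_sigma.2 ⟨hm, hl⟩
        obtain ⟨h1, h2, h3, h4, h5, h6, h7⟩ := hmem _ hs
        simp only at h1 h2 h3 h4 h5 h6 h7
        have hdl : dl l = 1 / 2 := by
          unfold dl
          rw [if_pos (hb m h3 l h7).1]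
        have hm1 : m ≠ 0 := by omega
        have hws : ws (l * m) = 1 / 2 * ws m := by
          rw [ws_mul_prime h4 hm1 (hnd _ hs), hdl]
        simp only [hg]
        rw [hws]
        have hm0 : (m : ℝ) ≠ 0 := by exact_mod_cast hm1
        have hl0 : (l : ℝ) ≠ 0 := by exact_mod_cast h4.ne_zero
        push_cast
        field_simp
    _ = ∑ n ∈ (Ms.sigma Ls).image g, ws n / (n : ℝ) := by
        rw [Finset.sum_image hinj]
    _ ≤ ∑ n ∈ cls W a Y (Y ^ 3), ws n / n := by
        apply Finset.sum_le_sum_of_subset_of_nonneg hsub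
        intro n _ _
        exact div_nonneg (ws_nonneg n) (Nat.cast_nonneg n)

end Pool.Agent.Lib.MP_ba0fa5_ag.AA.H70
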